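import Pool.Agent.H81.NCH.Stmts
import Pool.Agent.H81.NCH.Base

/-!
# NCH: the counting function of the kept letters (KPA)
-/

set_option autoImplicit false

namespace Pool.Agent.H33.NCH

open Pool.Agent.H81.NCH

theorem kap_succ (h m e i r t : ℕ) :
    kap h m e i r (t + 1) = kap h m e i r t + if Kept h m e i r t then 1 else 0 := by
  unfold kap
  rw [Finset.range_add_one, Finset.filter_insert]
  split_ifs with hk
  · rw [Finset.card_insert_of_notMem]
    intro hm
    simp at hm
  · rfl

theorem kap_block (h m e i r q j n : ℕ) (hn : n ≤ NN h)
    (hK : ∀ s < n, (Kept h m e i r (NN h * q + s) ↔ j ≤ s)) :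
    kap h m e i r (NN h * q + n) = kap h m e i r (NN h * q) + (n - j) := by
  induction n with
  | zero => simp
  | succ n ih =>
    have h1 := ih (by omega) (fun s hs => hK s (by omega))
    rw [← Nat.add_assoc, kap_succ, h1]
    have h2 := hK n (by omega)
    by_cases h3 : j ≤ n
    · rw [if_pos (h2.2 h3)]
      omega
    · rw [if_neg (fun hh => h3 (h2.1 hh))]
      omega

theorem kap_arith (a N j P q : ℕ) (hj : j + P < N) :
    a + (N - (j + P)) + P * (q + 1) = a + P * q + (N - j) := by
  rw [Nat.mul_succ]
  omega

theorem KPA_thm : KPAStmt := by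
  intro h m e i he hi
  have hj : 2 ^ e + i + 2 ^ (h + 1) < NN h := by
    have h1 : 2 ^ e ≤ 2 ^ h := Nat.pow_le_pow_right (by omega) he
    have h2 : NN h = 8 * 2 ^ h := by
      unfold NN
      rw [pow_add]
      ring
    have h3 : 2 ^ (h + 1) = 2 * 2 ^ h := by
      rw [pow_succ]
      ring
    rw [h2, h3]
    omega
  have hN := NN_pos h
  have hmono : ∀ r t n : ℕ, kap h m e i r t ≤ kap h m e i r (t + n) ∧
      kap h m e i r (t + n) ≤ kap h m e i r t + n := by
    intro r t n
    induction n with
    | zero => simp
    | succ n ih =>
      rw [← Nat.add_assoc, kap_succ]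
      split_ifs <;> omega
  refine ⟨?_, ?_, ?_⟩
  · intro r t t' htt
    have := hmono r t (t' - t)
    rw [Nat.add_sub_of_le htt] at this
    exact this
  · intro r r' t h1 h2
    unfold kap
    congr 1
    apply Finset.filter_congr
    intro s hs
    rw [Finset.mem_range] at hs
    have h3 : s / NN h < r := (Nat.div_lt_iff_lt_mul hN).2 (by rw [mul_comm]; omega)
    have h4 : s / NN h < r' := (Nat.div_lt_iff_lt_mul hN).2 (by rw [mul_comm]; omega)
    unfold Kept
    rw [if_pos h3, if_pos h4]
  · intro r t ht hrm
    have hNH : NN h * r ≤ NH h m e := by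
      unfold NH
      apply Nat.mul_le_mul_left
      unfold HH
      have : 1 ≤ 4 ^ (h - e) := Nat.one_le_pow _ _ (by omega)
      nlinarith
    have hdiv : ∀ q s : ℕ, s < NN h → (NN h * q + s) / NN h = q ∧ (NN h * q + s) % NN h = s := by
      intro q s hs
      constructor
      · rw [Nat.mul_add_div hN, Nat.div_eq_of_lt hs]
        rfl
      · rw [Nat.mul_add_mod, Nat.mod_eq_of_lt hs]
    have hlt : ∀ q s : ℕ, q < r → s < NN h → NN h * q + s < NH h m e := by
      intro q s hq hs
      have : NN h * (q + 1) ≤ NN h * r := Nat.mul_le_mul_left _ hq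
      rw [Nat.mul_add, mul_one] at this
      omega
    have hA : ∀ q ≤ r, kap h m e i r (NN h * q) + 2 ^ (h + 1) * q = kap h m e i 0 (NN h * q) := by
      intro q
      induction q with
      | zero =>
        intro _
        simp [kap]
      | succ q ih =>
        intro hq
        have h1 := ih (by omega)
        have h2 := kap_block h m e i r q (2 ^ e + i + 2 ^ (h + 1)) (NN h) le_rfl (by
          intro s hs
          have h4 := hdiv q s hs
          have h5 := hlt q s (by omega) hs
          unfold Kept
          rw [h4.1, h4.2, if_pos (by omega)]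
          constructor
          · rintro (h6 | h6)
            · exact h6.2
            · omega
          · intro h6
            exact Or.inl ⟨h5, h6⟩)
        have h3 := kap_block h m e i 0 q (2 ^ e + i) (NN h) le_rfl (by
          intro s hs
          have h4 := hdiv q s hs
          have h5 := hlt q s (by omega) hs
          unfold Kept
          rw [h4.1, h4.2, if_neg (by omega)]
          constructor
          · rintro (h6 | h6)
            · exact h6.2
            · omega
          · intro h6
            exact Or.inl ⟨h5, h6⟩)
        have h6 : NN h * (q + 1) = NN h * q + NN h := by ring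
        rw [h6, h2, h3, ← h1]
        exact kap_arith _ _ _ _ _ hj
    have hB : ∀ n : ℕ, kap h m e i r (NN h * r + n) + 2 ^ (h + 1) * r =
        kap h m e i 0 (NN h * r + n) := by
      intro n
      induction n with
      | zero => exact hA r le_rfl
      | succ n ih =>
        rw [← Nat.add_assoc, kap_succ, kap_succ]
        have h1 : Kept h m e i r (NN h * r + n) ↔ Kept h m e i 0 (NN h * r + n) := by
          have h2 : r ≤ (NN h * r + n) / NN h := by
            rw [Nat.mul_add_div hN]
            exact Nat.le_add_right _ _
          unfold Kept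
          rw [if_neg (by omega), if_neg (by omega)]
        by_cases h3 : Kept h m e i r (NN h * r + n)
        · rw [if_pos h3, if_pos (h1.1 h3)]
          omega
        · rw [if_neg h3, if_neg (fun hh => h3 (h1.2 hh))]
          omega
    have := hB (t - NN h * r)
    rw [Nat.add_sub_of_le ht] at this
    exact this

end Pool.Agent.H33.NCH
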