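import Pool.Agent.H81.NCH.Stmts
import Pool.Agent.H81.NCH.Base

/-!
# NCH: the level in a wall (LVF)
-/

set_option autoImplicit false

namespace Pool.Agent.H33.NCH

open Pool.Agent.H81.NCH

theorem kap_zero (h m e i r : ℕ) : kap h m e i r 0 = 0 := by
  simp [kap]

theorem LVF_thm : LVFStmt := by
  intro h m r e i t he1 he hi hw
  have h1 := st_le_cs (h := h) (m := m) e i
  have h2 := ce_le_en (h := h) (m := m) e i
  have h3 := cs_le_ce (h := h) (m := m) e i
  have hw' : st h m e i ≤ t ∧ t ≤ en h m e i ∧ (t ≤ cs h m e i ∨ ce h m e i ≤ t) := by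
    obtain ⟨side, hside⟩ := hw
    cases side
    · have h4 : ce h m e i ≤ t ∧ t ≤ en h m e i := by
        simpa [InWall] using hside
      refine ⟨?_, ?_, ?_⟩ <;> omega
    · have h4 : st h m e i ≤ t ∧ t ≤ cs h m e i := by
        simpa [InWall] using hside
      refine ⟨?_, ?_, ?_⟩ <;> omega
  obtain ⟨hst, hen, hcore⟩ := hw'
  set f : ℕ → ℤ := fun D => ∑ x ∈ Finset.range (2 ^ D),
    sgn D x * (kap h m D x (r D x) (idx h m D x t) : ℤ) with hf
  have hphi : phi h m r t = ∑ D ∈ Finset.Ico 1 (h + 1), f D := by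
    rw [Finset.sum_Ico_eq_sum_range]
    unfold phi
    have : h + 1 - 1 = h := by omega
    rw [this]
    apply Finset.sum_congr rfl
    intro a _
    rw [hf, Nat.add_comm 1 a]
  have hz : ∀ D x : ℕ, idx h m D x t = 0 →
      sgn D x * (kap h m D x (r D x) (idx h m D x t) : ℤ) = 0 := by
    intro D x h0
    rw [h0, kap_zero]
    simp
  have hlow : ∀ D ∈ Finset.Ico 1 e, f D = sgn D (i / 2 ^ (e - D)) *
      (kap h m D (i / 2 ^ (e - D)) (r D (i / 2 ^ (e - D))) (Wd h m (h - D)) : ℤ) := by
    intro D hD
    rw [Finset.mem_Ico] at hD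
    have hI : Inside D (i / 2 ^ (e - D)) e i := ⟨by omega, rfl⟩
    have hidx : idx h m D (i / 2 ^ (e - D)) t = Wd h m (h - D) :=
      idx_anc hD.1 hI hD.2 he hst hen
    rw [hf]
    dsimp only
    rw [Finset.sum_eq_single (i / 2 ^ (e - D))]
    · rw [hidx]
    · intro x hx hne
      apply hz
      rw [Finset.mem_range] at hx
      refine idx_other hD.1 (by omega) hx he1 he hi ?_ ?_ hst hen
      · rintro ⟨_, h5⟩
        exact hne h5.symm
      · rintro ⟨h5, _⟩
        omega
    · intro hx
      exact absurd (Finset.mem_range.2 (hI.pow_lt hi)) hx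
  have hmid : f e = sgn e i * (kap h m e i (r e i) (idx h m e i t) : ℤ) := by
    rw [hf]
    dsimp only
    rw [Finset.sum_eq_single i]
    · intro x hx hne
      apply hz
      rw [Finset.mem_range] at hx
      refine idx_other he1 he hx he1 he hi ?_ ?_ hst hen
      · rintro ⟨_, h5⟩
        simp at h5
        exact hne h5.symm
      · rintro ⟨_, h5⟩
        simp at h5
        exact hne h5
    · intro hx
      exact absurd (Finset.mem_range.2 hi) hx
  have hhigh : ∀ D ∈ Finset.Ico (e + 1) (h + 1), f D = 0 := by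
    intro D hD
    rw [Finset.mem_Ico] at hD
    rw [hf]
    dsimp only
    apply Finset.sum_eq_zero
    intro x hx
    rw [Finset.mem_range] at hx
    apply hz
    by_cases hI : Inside e i D x
    · have h5 := nested (m := m) hI (by omega) (by omega : D ≤ h)
      apply idx_outside
      rcases hcore with h6 | h6
      · left
        omega
      · right
        omega
    · refine idx_other (by omega) (by omega) hx he1 he hi ?_ hI hst hen
      rintro ⟨h5, _⟩
      omega
  rw [hphi, ← Finset.sum_Ico_consecutive f (by omega : 1 ≤ e) (by omega : e ≤ h + 1),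
    Finset.sum_eq_sum_Ico_succ_bot (by omega : e < h + 1), hmid, Finset.sum_eq_zero hhigh, add_zero,
    Finset.sum_congr rfl hlow]
  rfl

end Pool.Agent.H33.NCH
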