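import Pool.Agent.H81.NCH.Stmts2
import Pool.Agent.H4.NCH.TYP

/-!
# NCH, module WSU (MP_f18ce0_lc): derivation of all nodes of small degree by halving the degree
-/

set_option autoImplicit false

namespace Pool.Agent.H81.NCH

open Pool.Agent.H80

universe u

namespace WSU

variable {K : Type u} [Field K] {n : ℕ}

/-- a homogeneous polynomial of degree zero is a constant -/
lemma deg_zero {p : NCPoly K (Fin n)} (hp : HomogOf p 0) :
    p = MonoidAlgebra.single 1 (p.coeff 1) := by
  classical
  apply MonoidAlgebra.coeff_injective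
  ext w
  by_cases hw : w = 1
  · subst hw
    simp [MonoidAlgebra.coeff_single]
  · have h1 : p.coeff w = 0 := by
      by_contra h2
      have h3 := hp w h2
      exact hw (FreeMonoid.length_eq_zero.1 h3)
    rw [h1]
    simp [MonoidAlgebra.coeff_single, Ne.symm hw]

lemma inner (D : Circuit K (Fin n)) (X : HVal D) (k c' : ℕ) (l' : List (NCPoly K (Fin n)))
    (h' : WSD l' c') (hl' : ∀ v : D.V, X.val v ≠ 0 → X.deg v ≤ k / 2 → X.val v ∈ l') :
    ∃ (l : List (NCPoly K (Fin n))) (c : ℕ), WSD l c ∧ c ≤ D.size * (1 + c') ∧
      ∀ v : D.V, X.val v ≠ 0 → X.deg v ≤ k → X.val v ∈ l := by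
  classical
  obtain ⟨rank, hrank⟩ := D.acyclic
  have key : ∀ S : Finset D.V,
      (∀ v ∈ S, ∀ (j : Fin 2) (t : D.V), (D.gate v).tail j = some t → t ∈ S) →
      ∃ (l : List (NCPoly K (Fin n))) (c : ℕ), WSD l c ∧ c ≤ S.card * (1 + c') ∧
        ∀ v ∈ S, X.val v ≠ 0 → X.deg v ≤ k → X.val v ∈ l := by
    intro S
    induction S using Finset.induction_on_max_value rank with
    | empty =>
      intro _
      exact ⟨[], 0, WSD.nil, by simp, by simp⟩
    | insert a S ha hmax ih =>
      intro hcl
      have hcl' : ∀ v ∈ S, ∀ (j : Fin 2) (t : D.V), (D.gate v).tail j = some t → t ∈ S := by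
        intro v hv j t ht
        have h1 := hcl v (Finset.mem_insert_of_mem hv) j t ht
        rcases Finset.mem_insert.1 h1 with h2 | h2
        · subst h2
          have h3 := hrank v j t ht
          have h4 := hmax v hv
          omega
        · exact h2
      have htail : ∀ (j : Fin 2) (t : D.V), (D.gate a).tail j = some t → t ∈ S := by
        intro j t ht
        have h1 := hcl a (Finset.mem_insert_self _ _) j t ht
        rcases Finset.mem_insert.1 h1 with h2 | h2
        · subst h2
          have h3 := hrank t j t ht
          omega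
        · exact h2
      obtain ⟨l, c, hd, hc, hl⟩ := ih hcl'
      rw [Finset.card_insert_of_notMem ha]
      have hcc : (S.card + 1) * (1 + c') = S.card * (1 + c') + (1 + c') := by ring
      rw [hcc]
      -- it is enough to add the value of `a`
      have fin : ∀ (l1 : List (NCPoly K (Fin n))) (c1 : ℕ), WSD l1 c1 → c1 ≤ c + (1 + c') →
          (∀ p ∈ l, p ∈ l1) → (X.val a ≠ 0 → X.deg a ≤ k → X.val a ∈ l1) →
          ∃ (l : List (NCPoly K (Fin n))) (c : ℕ), WSD l c ∧ c ≤ S.card * (1 + c') + (1 + c') ∧
            ∀ v ∈ insert a S, X.val v ≠ 0 → X.deg v ≤ k → X.val v ∈ l := by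
        intro l1 c1 h1 h2 h3 h4
        refine ⟨l1, c1, h1, by omega, ?_⟩
        intro v hv hv0 hvk
        rcases Finset.mem_insert.1 hv with h5 | h5
        · subst h5
          exact h4 hv0 hvk
        · exact h3 _ (hl v h5 hv0 hvk)
      by_cases hgood : X.val a ≠ 0 ∧ X.deg a ≤ k
      swap
      · exact fin l c hd (by omega) (fun p hp => hp) (fun h1 h2 => absurd ⟨h1, h2⟩ hgood)
      obtain ⟨ha0, hak⟩ := hgood
      obtain ⟨_, _, ht3⟩ := typ_thm K n D X a 0
      obtain ⟨_, _, hadd, hmul⟩ := ht3 ha0
      have hval := X.compat a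
      cases hg : D.gate a with
      | var i =>
        rw [hg] at hval
        refine fin _ _ (WSD.var hd i) (by omega) (fun p hp => List.mem_cons_of_mem _ hp) ?_
        intro _ _
        rw [hval]
        exact List.mem_cons_self
      | const x =>
        rw [hg] at hval
        refine fin _ _ (WSD.const hd x) (by omega) (fun p hp => List.mem_cons_of_mem _ hp) ?_
        intro _ _
        rw [hval]
        exact List.mem_cons_self
      | add x y =>
        rw [hg] at hval
        have hval' : X.val a = X.val x + X.val y := hval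
        have hx : x ∈ S := htail 0 x (by rw [hg]; rfl)
        have hy : y ∈ S := htail 1 y (by rw [hg]; rfl)
        obtain ⟨h1, h2, _⟩ := hadd x y hg
        by_cases hx0 : X.val x = 0
        · rw [hx0, zero_add] at hval'
          refine fin l c hd (by omega) (fun p hp => hp) ?_
          intro _ _
          rw [hval']
          have hy0 : X.val y ≠ 0 := by
            rw [← hval']
            exact ha0
          exact hl y hy hy0 (by rw [h2 hy0]; exact hak)
        · by_cases hy0 : X.val y = 0
          · rw [hy0, add_zero] at hval'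
            refine fin l c hd (by omega) (fun p hp => hp) ?_
            intro _ _
            rw [hval']
            exact hl x hx hx0 (by rw [h1 hx0]; exact hak)
          · have hxl := hl x hx hx0 (by rw [h1 hx0]; exact hak)
            have hyl := hl y hy hy0 (by rw [h2 hy0]; exact hak)
            refine fin _ _ (WSD.add hd hxl hyl ⟨X.deg a, ?_⟩) (by omega)
              (fun p hp => List.mem_cons_of_mem _ hp) ?_
            · rw [← hval']
              exact X.hom a
            · intro _ _
              rw [hval']
              exact List.mem_cons_self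
      | mul x y =>
        rw [hg] at hval
        have hval' : X.val a = X.val x * X.val y := hval
        have hx : x ∈ S := htail 0 x (by rw [hg]; rfl)
        have hy : y ∈ S := htail 1 y (by rw [hg]; rfl)
        obtain ⟨hx0, hy0, hdeg, _⟩ := hmul x y hg
        have hxl := hl x hx hx0 (by omega)
        have hyl := hl y hy hy0 (by omega)
        rcases Nat.le_total (X.deg x) (X.deg y) with h1 | h1
        · have hxl' := hl' x hx0 (by omega)
          refine fin _ _ (WSD.mulL hd h' hxl' hyl) (by omega)
            (fun p hp => List.mem_cons_of_mem _ hp) ?_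
          intro _ _
          rw [hval']
          exact List.mem_cons_self
        · have hyl' := hl' y hy0 (by omega)
          refine fin _ _ (WSD.mulR hd h' hxl hyl') (by omega)
            (fun p hp => List.mem_cons_of_mem _ hp) ?_
          intro _ _
          rw [hval']
          exact List.mem_cons_self
  obtain ⟨l, c, h1, h2, h3⟩ := key Finset.univ (fun _ _ _ _ _ => Finset.mem_univ _)
  refine ⟨l, c, h1, ?_, fun v => h3 v (Finset.mem_univ _)⟩
  have h4 : (Finset.univ : Finset D.V).card = D.size := rfl
  rw [h4] at h2
  exact h2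

/-- the constants -/
lemma base (D : Circuit K (Fin n)) (X : HVal D) :
    ∃ (l : List (NCPoly K (Fin n))) (c : ℕ), WSD l c ∧ c ≤ D.size ∧
      ∀ v : D.V, X.val v ≠ 0 → X.deg v ≤ 0 → X.val v ∈ l := by
  classical
  have key : ∀ S : Finset D.V,
      ∃ (l : List (NCPoly K (Fin n))) (c : ℕ), WSD l c ∧ c ≤ S.card ∧
        ∀ v ∈ S, X.val v ≠ 0 → X.deg v ≤ 0 → X.val v ∈ l := by
    intro S
    induction S using Finset.induction_on with
    | empty => exact ⟨[], 0, WSD.nil, by simp, by simp⟩
    | insert a S ha ih =>
      obtain ⟨l, c, hd, hc, hl⟩ := ih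
      rw [Finset.card_insert_of_notMem ha]
      refine ⟨_, _, WSD.const hd ((X.val a).coeff 1), by omega, ?_⟩
      intro v hv hv0 hvk
      rcases Finset.mem_insert.1 hv with h5 | h5
      · subst h5
        have h6 : X.deg v = 0 := by omega
        have h7 := X.hom v
        rw [h6] at h7
        have h8 := deg_zero h7
        rw [← h8]
        exact List.mem_cons_self
      · exact List.mem_cons_of_mem _ (hl v h5 hv0 hvk)
  obtain ⟨l, c, h1, h2, h3⟩ := key Finset.univ
  refine ⟨l, c, h1, ?_, fun v => h3 v (Finset.mem_univ _)⟩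
  have h4 : (Finset.univ : Finset D.V).card = D.size := rfl
  rw [h4] at h2
  exact h2

end WSU

theorem wsu_thm : WSUStmt.{u} := by
  intro K _ n D X t
  have hs : 1 ≤ D.size := by
    have h1 : 0 < @Fintype.card D.V D.fin := @Fintype.card_pos _ D.fin ⟨D.out⟩
    exact h1
  induction t with
  | zero =>
    intro k hk
    obtain ⟨l, c, h1, h2, h3⟩ := WSU.base D X
    refine ⟨l, c, h1, ?_, ?_⟩
    · rw [zero_add, pow_one]
      omega
    · intro v hv hvk
      have hk0 : k = 0 := by
        have : k < 1 := by simpa using hk
        omega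
      subst hk0
      exact h3 v hv hvk
  | succ t ih =>
    intro k hk
    obtain ⟨l', c', h1, h2, h3⟩ := ih (k / 2) (by rw [pow_succ] at hk; omega)
    obtain ⟨l, c, h4, h5, h6⟩ := WSU.inner D X k c' l' h1 h3
    refine ⟨l, c, h4, ?_, h6⟩
    have h7 : 1 ≤ (2 * D.size) ^ (t + 1) := Nat.one_le_pow _ _ (by omega)
    calc c ≤ D.size * (1 + c') := h5
      _ ≤ D.size * ((2 * D.size) ^ (t + 1) + (2 * D.size) ^ (t + 1)) :=
          Nat.mul_le_mul_left _ (Nat.add_le_add h7 h2)
      _ = (2 * D.size) ^ (t + 1 + 1) := by
          rw [pow_succ (2 * D.size) (t + 1)]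
          ring

end Pool.Agent.H81.NCH
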