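import Pool.Agent.H81.NCH.Stmts2
import Pool.Agent.H4.NCH.TYP
import Pool.Agent.H20.NCH.WSB
import Pool.Agent.H33.NCH.WSU

/-!
# NCH, module UPV (MP_f18ce0_lc): the upper bound
-/

set_option autoImplicit false

namespace Pool.Agent.H81.NCH

open Pool.Agent.H80

universe u

namespace UPV

variable {K : Type u} [Field K] {n : ℕ}

/-- the circuit with one node, labelled by the constant `0` -/
def zeroCircuit (K : Type u) [Field K] (n : ℕ) : Circuit K (Fin n) where
  V := Unit
  fin := inferInstance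
  gate := fun _ => Gate.const 0
  acyclic := ⟨fun _ => 0, fun v j t h => by simp [Gate.tail] at h⟩
  out := ()
  out_iff := by
    intro v
    constructor
    · intro _ w j h
      simp [Gate.tail] at h
    · intro _
      rfl

lemma zero_ws : (zeroCircuit K n).WeaklySkew := by
  intro g a b h
  simp [zeroCircuit] at h

lemma zero_computes : HomComputes (zeroCircuit K n) (0 : NCPoly K (Fin n)) := by
  refine ⟨fun _ => 0, ?_, ?_, rfl⟩
  · intro v
    simp [zeroCircuit, ncValue]
  · intro v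
    refine ⟨0, ?_⟩
    intro w hw
    simp at hw

lemma zero_size : (zeroCircuit K n).size = 1 := rfl

lemma num (s : ℕ) (hs : 2 ≤ s) (c : ℕ) (hc : c ≤ (2 * s) ^ (Nat.log 2 s + 1 + 1)) :
    (c : ℝ) ≤ (s : ℝ) ^ (6 / Real.log 2 * Real.log s) := by
  have hs1 : (1 : ℝ) ≤ (s : ℝ) := by exact_mod_cast (by omega : 1 ≤ s)
  have hL1 : 1 ≤ Nat.log 2 s := Nat.log_pos (by norm_num) hs
  have h1 : (2 * s) ^ (Nat.log 2 s + 1 + 1) ≤ s ^ (6 * Nat.log 2 s) := by
    calc (2 * s) ^ (Nat.log 2 s + 1 + 1) ≤ (s ^ 2) ^ (Nat.log 2 s + 1 + 1) :=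
          Nat.pow_le_pow_left (by nlinarith) _
      _ = s ^ (2 * (Nat.log 2 s + 1 + 1)) := by rw [← pow_mul]
      _ ≤ s ^ (6 * Nat.log 2 s) := Nat.pow_le_pow_right (by omega) (by omega)
  have h2 : (c : ℝ) ≤ (s : ℝ) ^ (((6 * Nat.log 2 s : ℕ)) : ℝ) := by
    rw [Real.rpow_natCast]
    exact_mod_cast hc.trans h1
  refine h2.trans (Real.rpow_le_rpow_of_exponent_le hs1 ?_)
  have h3 : (2 : ℝ) ^ (Nat.log 2 s) ≤ (s : ℝ) := by
    exact_mod_cast Nat.pow_log_le_self 2 (by omega)
  have h4 : (Nat.log 2 s : ℝ) * Real.log 2 ≤ Real.log s := by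
    rw [← Real.log_pow]
    exact Real.log_le_log (by positivity) h3
  have h5 : 0 < Real.log 2 := Real.log_pos (by norm_num)
  push_cast
  rw [div_mul_eq_mul_div, le_div_iff₀ h5]
  nlinarith

end UPV

theorem upv_thm : UPVStmt.{u} := by
  refine ⟨6 / Real.log 2, by have := Real.log_pos (show (1 : ℝ) < 2 by norm_num); positivity, ?_⟩
  intro K _ n d s f D hs hd hf hD hsize
  by_cases hf0 : f = 0
  · refine ⟨UPV.zeroCircuit K n, UPV.zero_ws, ?_, ?_⟩
    · rw [hf0]
      exact UPV.zero_computes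
    · rw [UPV.zero_size]
      exact UPV.num s hs 1 (Nat.one_le_pow _ _ (by omega))
  · obtain ⟨val, h1, h2, h3⟩ := hD
    choose deg hdeg using h2
    let X : HVal D := ⟨val, h1, deg, hdeg⟩
    have hout : X.val D.out = f := h3
    obtain ⟨w, hw⟩ := TYP.exists_ne hf0
    have hdo : X.deg D.out = d := by
      have h4 := hf w hw
      have h5 := X.hom D.out w (by rw [hout]; exact hw)
      omega
    obtain ⟨l, c, h4, h5, h6⟩ := wsu_thm K n D X (Nat.log 2 s + 1) s
      (Nat.lt_pow_succ_log_self (by norm_num) s)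
    have h7 := h6 D.out (by rw [hout]; exact hf0) (by omega)
    rw [hout] at h7
    obtain ⟨D', h8, h9, h10⟩ := wsb_thm K n l c f h4 h7
    refine ⟨D', h8, h9, UPV.num s hs D'.size ?_⟩
    exact (h10.trans h5).trans (Nat.pow_le_pow_left (by omega) _)

end Pool.Agent.H81.NCH
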